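import Pool.Agent.helper77.PV.SpecB

set_option autoImplicit false

open scoped Matrix Topology
open Filter

namespace Pool.Agent.PV

open Pool.Agent.CZ

attribute [local instance] Matrix.linftyOpNormedRing Matrix.linftyOpNormedAlgebra

private theorem D1K_htp {A : Type} [NormedRing A] [NormedAlgebra ℂ A] [CompleteSpace A]
    {ι : Type} [Fintype ι] [DecidableEq ι] (g : (Matrix ι ι A)ˣ) (Y : Matrix ι ι A)
    (h : ‖1 - ((g⁻¹ : (Matrix ι ι A)ˣ) : Matrix ι ι A) * Y‖ < 1) :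
    ∃ Y' : (Matrix ι ι A)ˣ, (Y' : Matrix ι ι A) = Y ∧ Htp g Y' := by
  have hcs : @CompleteSpace (Matrix ι ι A) (PseudoMetricSpace.toUniformSpace) :=
    inferInstanceAs (CompleteSpace (ι → ι → A))
  set t : Matrix ι ι A := 1 - ((g⁻¹ : (Matrix ι ι A)ˣ) : Matrix ι ι A) * Y with ht
  have hs (s : ℝ) (h0 : 0 ≤ s) (h1 : s ≤ 1) : ‖(s : ℂ) • t‖ < 1 := by
    rw [norm_smul, Complex.norm_real, Real.norm_eq_abs, abs_of_nonneg h0]
    calc s * ‖t‖ ≤ 1 * ‖t‖ := mul_le_mul_of_nonneg_right h1 (norm_nonneg _)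
      _ < 1 := by rw [one_mul]; exact h
  have hgY : (g : Matrix ι ι A) * (1 - t) = Y := by
    rw [ht, sub_sub_cancel, ← mul_assoc, Units.mul_inv, one_mul]
  refine ⟨g * Units.oneSub t h, ?_, ⟨⟨fun s => (g : Matrix ι ι A) * (1 - (((s : ℝ) : ℂ) • t)),
    ?_⟩, ?_, ?_, ?_⟩⟩
  · rw [Units.val_mul, Units.val_oneSub, hgY]
  · refine Continuous.matrix_mul continuous_const (continuous_const.sub ?_)
    exact Continuous.smul (Complex.continuous_ofReal.comp continuous_subtype_val) continuous_const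
  · intro s
    exact ⟨g * Units.oneSub _ (hs s s.2.1 s.2.2), by rw [Units.val_mul, Units.val_oneSub]; rfl⟩
  · simp
  · simp only [ContinuousMap.coe_mk, Set.Icc.coe_one, Complex.ofReal_one, one_smul]
    rw [Units.val_mul, Units.val_oneSub]

private theorem D1K_rix {A : Type} [Ring A] {ι κ : Type} [Fintype ι] [DecidableEq ι] [Fintype κ]
    [DecidableEq κ] (f : ι ≃ κ) (u : Aˣ) : rix f (uM ι u) = uM κ u := by
  ext i j
  simp [rix, uM, Matrix.scalar_apply, Matrix.diagonal_apply]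

private theorem D1K_sum {A : Type} [Ring A] (ι κ : Type) [Fintype ι] [DecidableEq ι] [Fintype κ]
    [DecidableEq κ] (u : Aˣ) : (uM (ι ⊕ κ) u : Matrix (ι ⊕ κ) (ι ⊕ κ) A) =
      Matrix.fromBlocks (uM ι u : Matrix ι ι A) 0 0 (uM κ u : Matrix κ κ A) := by
  ext i j
  rcases i with i | i <;> rcases j with j | j <;>
    simp [uM, Matrix.scalar_apply, Matrix.diagonal_apply]

private theorem D1K_uM (hK1M : K1M_stmt) (hK1B : K1B_stmt) (hK1R : K1R_stmt) {A : Type} [Ring A]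
    [TopologicalSpace A] (u : Aˣ) (k : ℕ) : k1 (uM (Fin k) u) = k • k1 (uM Unit u) := by
  induction k with
  | zero =>
    have h : uM (Fin 0) u = 1 := Subsingleton.elim _ _
    rw [h, zero_smul]
    exact (hK1M A (Fin 0) 1 1).2.2.1
  | succ k ih =>
    have h1 : k1 (uM (Fin (k + 1)) u) = k1 (uM (Fin k ⊕ Fin 1) u) := by
      rw [← D1K_rix (finSumFinEquiv : Fin k ⊕ Fin 1 ≃ Fin (k + 1)) u, hK1R]
    have h2 : k1 (uM (Fin 1) u) = k1 (uM Unit u) := by
      rw [← D1K_rix (Equiv.ofUnique (Fin 1) Unit) u, hK1R]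
    rw [h1, hK1B A (Fin k) (Fin 1) (uM (Fin k) u) (uM (Fin 1) u) _ (D1K_sum _ _ u), ih, h2,
      succ_nsmul]

theorem D1K (hINE : INE_stmt) (hKRA : KRA_stmt) (hLFA : LFA_stmt) (hQOP : QOP_stmt)
    (hQDM : QDM_stmt) (hK0Q : K0Q_stmt) (hK0B : K0B_stmt) (hK1M : K1M_stmt) (hK1B : K1B_stmt)
    (hK1G : K1G_stmt) (hK1R : K1R_stmt) (hK1C : K1C_stmt) : D1K_stmt := by
  intro B A _ _ _ _ _ _ al io u c hi hZ d1 hd1 y hy
  obtain ⟨n, g, rfl⟩ := hK1G A y
  obtain ⟨z, hz⟩ := hINE B A al io u c hZ (Fin n) g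
  have hz0 : z = 0 := by
    rw [← hd1 (Fin n) g z hz, hy]
  subst hz0
  obtain ⟨N, d, x, L, h, hd, hxd, hnorm, hL, hq⟩ := hz
  -- `X` is invertible
  obtain ⟨Y, hY, hgY⟩ := D1K_htp g _ hnorm
  set X : (Matrix (Fin n) (Fin n) A)ˣ := Y * uM (Fin n) u ^ N with hX
  have hXv : (X : Matrix (Fin n) (Fin n) A) = pX io u x d := by
    rw [hX, Units.val_mul, hY, mul_assoc, ← Units.val_mul, zpow_neg, zpow_natCast,
      inv_mul_cancel, Units.val_one, mul_one]
  obtain ⟨L₂, hL₂, hk2⟩ := hLFA B A al io u c hZ (Fin n) d x X hd hXv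
  have hLL : L₂ = L := by
    ext1
    exact hL₂.trans hL.symm
  subst hLL
  have hkY : k1 Y = k1 g := ((hK1M A (Fin n) g Y).2.2.2 hgY).symm
  have hpow (m : ℕ) : k1 (uM (Fin n) u ^ m) = m • k1 (uM (Fin n) u) := by
    induction m with
    | zero =>
      rw [pow_zero, zero_smul]
      exact (hK1M A (Fin n) 1 1).2.2.1
    | succ m ih => rw [pow_succ, (hK1M A (Fin n) _ _).1, ih, succ_nsmul]
  have hkX : k1 L₂ = k1 g + (N * n) • k1 (uM Unit u) := by
    rw [hk2, hX, (hK1M A (Fin n) Y _).1, hkY, hpow, D1K_uM hK1M hK1B hK1R, mul_smul]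
  -- the idempotent
  have h1 : (1 : Matrix (Fin (N * n)) (Fin (N * n)) B) * 1 = 1 := one_mul 1
  have hq1 : k0 (qL al c (bL d x) L₂) h = k0 (1 : Matrix (Fin (N * n)) (Fin (N * n)) B) h1 := by
    rw [hK0B.2.2 B (Fin (N * n)) h1]
    have h2 := sub_eq_zero.1 hq.symm
    simpa using h2
  obtain ⟨k, x', y', hxy, hyx⟩ := hK0Q B _ _ _ _ _ _ hq1
  -- `L' = L ⊕ u`
  let L' : (Matrix ((Fin d × Fin n) ⊕ Fin k) ((Fin d × Fin n) ⊕ Fin k) A)ˣ :=
    { val := Matrix.fromBlocks (L₂ : Matrix (Fin d × Fin n) (Fin d × Fin n) A) 0 0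
        (uM (Fin k) u : Matrix (Fin k) (Fin k) A)
      inv := Matrix.fromBlocks ((L₂⁻¹ : (Matrix (Fin d × Fin n) (Fin d × Fin n) A)ˣ) :
        Matrix (Fin d × Fin n) (Fin d × Fin n) A) 0 0
        (((uM (Fin k) u)⁻¹ : (Matrix (Fin k) (Fin k) A)ˣ) : Matrix (Fin k) (Fin k) A)
      val_inv := by
        rw [Matrix.fromBlocks_multiply]
        simp
      inv_val := by
        rw [Matrix.fromBlocks_multiply]
        simp }
  have hL'v : (L' : Matrix ((Fin d × Fin n) ⊕ Fin k) ((Fin d × Fin n) ⊕ Fin k) A) =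
    Matrix.fromBlocks (L₂ : Matrix (Fin d × Fin n) (Fin d × Fin n) A) 0 0
        (uM (Fin k) u : Matrix (Fin k) (Fin k) A) := rfl
  have hq' : qL al c (Matrix.fromBlocks (bL d x) 0 0 1) L' =
      Matrix.fromBlocks (qL al c (bL d x) L₂) 0 0 1 := by
    rw [(hQOP B A al io u c hZ (Fin d × Fin n) (Fin k)).1 (bL d x) 1 L₂ (uM (Fin k) u) L' hL'v,
      (hQOP B A al io u c hZ (Fin k) (Fin k)).2.2.2.2.1]
  have hlin : IsLin io u (Matrix.fromBlocks (aL d x) 0 0 (0 : Matrix (Fin k) (Fin k) B))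
      (Matrix.fromBlocks (bL d x) 0 0 1) L' := by
    unfold IsLin
    rw [hL'v, D1K_sum, Matrix.fromBlocks_map, Matrix.fromBlocks_map, Matrix.fromBlocks_multiply,
      Matrix.fromBlocks_add]
    have e1 : (1 : Matrix (Fin k) (Fin k) B).map io = 1 :=
      Matrix.map_one _ (map_zero io) (map_one io)
    have e2 : ∀ (α β : Type), (0 : Matrix α β B).map io = 0 :=
      fun α β => Matrix.map_zero _ (map_zero io)
    rw [e1]
    simp only [e2, Matrix.zero_mul, Matrix.mul_zero, add_zero, zero_add, Matrix.one_mul]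
    rw [← hL]
  let F : Fin d × Fin n ≃ Fin (Fintype.card (Fin d × Fin n)) := Fintype.equivFin _
  let G : Fin (Fintype.card (Fin (N * n)) + k) ≃ Fin (Fintype.card (Fin (N * n))) ⊕ Fin k :=
    finSumFinEquiv.symm
  obtain ⟨y₁, hy₁⟩ := hKRA B A al io u c hi hZ ((Fin d × Fin n) ⊕ Fin k) _ _ L'
    (Fintype.card (Fin (N * n)) + k) (x'.submatrix (Sum.map F id) G)
    (y'.submatrix G (Sum.map F id)) hlin (by
      rw [Matrix.submatrix_mul_equiv, hxy, hq']
      ext i j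
      rcases i with i | i <;> rcases j with j | j <;> simp [F, Matrix.one_apply]) (by
      have h3 : (y'.submatrix G (Sum.map F id)) * (x'.submatrix (Sum.map F id) G) =
          (y' * x').submatrix G G :=
        Matrix.submatrix_mul_equiv y' x' G (Equiv.sumCongr F (Equiv.refl (Fin k))) G
      rw [h3, hyx]
      have h4 : Matrix.fromBlocks ((1 : Matrix (Fin (N * n)) (Fin (N * n)) B).submatrix
          (Fintype.equivFin (Fin (N * n))).symm (Fintype.equivFin (Fin (N * n))).symm) 0 0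
          (1 : Matrix (Fin k) (Fin k) B) = 1 := by
        rw [Matrix.submatrix_one_equiv, Matrix.fromBlocks_one]
      rw [h4, Matrix.submatrix_one_equiv])
  refine ⟨y₁, ?_⟩
  have hk' : k1 L' = k1 L₂ + k • k1 (uM Unit u) := by
    rw [hK1B A _ _ L₂ (uM (Fin k) u) L' hL'v, D1K_uM hK1M hK1B hK1R]
  rw [hy₁, hkX, Fintype.card_fin, add_smul] at hk'
  have h5 : k1map io.toRingHom hi y₁ + ((N * n) • k1 (uM Unit u) + k • k1 (uM Unit u)) =
      k1 g + ((N * n) • k1 (uM Unit u) + k • k1 (uM Unit u)) := by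
    rw [hk']
    abel
  exact (add_right_cancel h5).symm

end Pool.Agent.PV
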