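import Pool.Agent.helper53.PV.SpecF

set_option autoImplicit false

open scoped Topology
open MeasureTheory Filter

namespace Pool.Agent.PV

open Pool.Agent.CZ

theorem FTZ : FTZ_stmt := by
  classical
  intro X _ _ x₀ x hinj hlim hne
  let Z : Set X := {x₀}ᶜ
  let e : ℕ → Z := fun j => ⟨x j, hne j⟩
  have hcl : ∀ A : Set ℕ, IsClosed (insert x₀ (x '' A)) := by
    intro A
    have h1 : Tendsto (fun a : A => x a) cofinite (𝓝 x₀) := by
      rw [← Nat.cofinite_eq_atTop] at hlim
      exact hlim.comp Subtype.val_injective.tendsto_cofinite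
    have h2 := h1.isCompact_insert_range_of_cofinite
    have h3 : Set.range (fun a : A => x a) = x '' A := by
      ext z
      simp
    rw [h3] at h2
    exact h2.isClosed
  have hmap : IsClosedMap e := by
    intro A _
    have h1 : e '' A = Subtype.val ⁻¹' (insert x₀ (x '' A)) := by
      ext z
      constructor
      · rintro ⟨j, hj, rfl⟩
        exact Or.inr ⟨j, hj, rfl⟩
      · rintro (h | ⟨j, hj, h⟩)
        · exact absurd h z.2
        · exact ⟨j, hj, Subtype.ext h⟩
    rw [h1]
    exact (hcl A).preimage continuous_subtype_val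
  have he : Topology.IsClosedEmbedding e :=
    Topology.IsClosedEmbedding.of_continuous_injective_isClosedMap continuous_of_discreteTopology
      (fun i j h => hinj (congrArg Subtype.val h)) hmap
  obtain ⟨g, hg⟩ := ContinuousMap.exists_extension he
    (⟨fun j : ℕ => (j : ℝ), continuous_of_discreteTopology⟩ : C(ℕ, ℝ))
  refine ⟨fun z => if h : z ∈ Z then g ⟨z, h⟩ else 0, ?_, fun j => ?_⟩
  · have h1 : Set.domRestrict Z (fun z => if h : z ∈ Z then g ⟨z, h⟩ else 0) = g := by
      ext z
      rw [Set.domRestrict_apply, dif_pos z.2]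
    have h3 : Continuous (Set.domRestrict Z (fun z => if h : z ∈ Z then g ⟨z, h⟩ else 0)) := by
      rw [h1]
      exact g.continuous
    exact continuousOn_iff_continuous_domRestrict.2 h3
  · have h2 : x j ∈ Z := hne j
    simp only
    rw [dif_pos h2]
    exact congrArg (fun f : C(ℕ, ℝ) => f j) hg

end Pool.Agent.PV
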