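import Pool.Agent.helper77.PV.SpecA

set_option autoImplicit false

open scoped Matrix Topology
open Filter

namespace Pool.Agent.PV

open Pool.Agent.CZ

/-- `[[g, b], [0, h]]` -/
private def K1T_tri {A : Type} [Ring A] {ι κ : Type} [Fintype ι] [DecidableEq ι]
    [Fintype κ] [DecidableEq κ] (g : (Matrix ι ι A)ˣ) (h : (Matrix κ κ A)ˣ) (b : Matrix ι κ A) :
    (Matrix (ι ⊕ κ) (ι ⊕ κ) A)ˣ where
  val := Matrix.fromBlocks (g : Matrix ι ι A) b 0 (h : Matrix κ κ A)
  inv := Matrix.fromBlocks ((g⁻¹ : (Matrix ι ι A)ˣ) : Matrix ι ι A)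
    (-(((g⁻¹ : (Matrix ι ι A)ˣ) : Matrix ι ι A) * b * ((h⁻¹ : (Matrix κ κ A)ˣ) : Matrix κ κ A))) 0
    ((h⁻¹ : (Matrix κ κ A)ˣ) : Matrix κ κ A)
  val_inv := by
    rw [Matrix.fromBlocks_multiply]
    simp [← Matrix.mul_assoc]
  inv_val := by
    rw [Matrix.fromBlocks_multiply]
    simp [Matrix.mul_assoc]

theorem K1T (hK1M : K1M_stmt) (hK1B : K1B_stmt) : K1T_stmt := by
  refine ⟨?_, ?_⟩
  · intro A _ _ ι κ _ _ _ _ g h b k hk
    rw [← hK1B A ι κ g h (K1T_tri g h 0) rfl]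
    refine (hK1M A (ι ⊕ κ) k (K1T_tri g h 0)).2.2.2 ?_
    refine ⟨⟨fun t => Matrix.fromBlocks (g : Matrix ι ι A) (((1 - (t : ℝ) : ℝ) : ℂ) • b) 0
      (h : Matrix κ κ A), ?_⟩, fun t => ?_, ?_, ?_⟩
    · refine Continuous.matrix_fromBlocks continuous_const ?_ continuous_const continuous_const
      exact Continuous.smul (Complex.continuous_ofReal.comp
        (continuous_const.sub continuous_subtype_val)) continuous_const
    · exact ⟨K1T_tri g h (((1 - (t : ℝ) : ℝ) : ℂ) • b), rfl⟩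
    · rw [hk]
      simp
    · simp [K1T_tri]
  · intro A _ _ ι κ _ _ _ _ e f x y v g h hxy hyx hex hxf hfy hye hev hve hg hh
    have hee : e * e = e := by
      conv_lhs => rw [← hxy, ← Matrix.mul_assoc, hxy, hex]
      exact hxy
    have hff : f * f = f := by
      conv_lhs => rw [← hyx, ← Matrix.mul_assoc, hyx, hfy]
      exact hyx
    have hce : (1 - e) * (1 - e) = 1 - e := IsIdempotentElem.one_sub hee
    have hcf : (1 - f) * (1 - f) = 1 - f := IsIdempotentElem.one_sub hff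
    have hcev : (1 - e) * v = 0 := by
      rw [Matrix.sub_mul, Matrix.one_mul, hev, sub_self]
    set Z : Matrix (ι ⊕ κ) (ι ⊕ κ) A := Matrix.fromBlocks (1 - e) x y (1 - f) with hZ
    have hZZ : Z * Z = 1 := by
      rw [hZ, Matrix.fromBlocks_multiply, ← Matrix.fromBlocks_one]
      congr 1
      · rw [hxy, hce]
        abel
      · rw [Matrix.sub_mul, Matrix.mul_sub, Matrix.one_mul, Matrix.mul_one, hex, hxf]
        abel
      · rw [Matrix.sub_mul, Matrix.mul_sub, Matrix.one_mul, Matrix.mul_one, hfy, hye]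
        abel
      · rw [hyx, hcf]
        abel
    let ZU : (Matrix (ι ⊕ κ) (ι ⊕ κ) A)ˣ := ⟨Z, Z, hZZ, hZZ⟩
    let G : (Matrix (ι ⊕ κ) (ι ⊕ κ) A)ˣ := K1T_tri g 1 0
    let H : (Matrix (ι ⊕ κ) (ι ⊕ κ) A)ˣ := K1T_tri 1 h 0
    have key : ZU * G * ZU = H := by
      ext1
      change Z * Matrix.fromBlocks (g : Matrix ι ι A) 0 0 1 * Z =
        Matrix.fromBlocks 1 0 0 (h : Matrix κ κ A)
      have h1 : (1 - e) * (g : Matrix ι ι A) = 1 - e := by
        rw [hg, Matrix.mul_add, hcev, hce, zero_add]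
      have h2 : y * (g : Matrix ι ι A) = y * v := by
        rw [hg, Matrix.mul_add, Matrix.mul_sub, Matrix.mul_one, hye]
        abel
      rw [hZ, Matrix.fromBlocks_multiply, Matrix.fromBlocks_multiply]
      simp only [Matrix.mul_zero, add_zero, zero_add, Matrix.mul_one, h1, h2]
      congr 1
      · rw [hxy, hce]
        abel
      · rw [Matrix.sub_mul, Matrix.mul_sub, Matrix.one_mul, Matrix.mul_one, hex, hxf]
        abel
      · rw [Matrix.sub_mul, Matrix.mul_sub, Matrix.one_mul, Matrix.mul_one, hfy,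
          Matrix.mul_assoc, hve]
        abel
      · rw [hh, hcf]
    have e1 : k1 (ZU * G * ZU) = k1 ZU + k1 G + k1 ZU := by
      rw [(hK1M A (ι ⊕ κ) (ZU * G) ZU).1, (hK1M A (ι ⊕ κ) ZU G).1]
    have e2 : k1 ZU + k1 ZU = 0 := by
      rw [← (hK1M A (ι ⊕ κ) ZU ZU).1]
      have h3 : ZU * ZU = 1 := by
        ext1
        exact hZZ
      rw [h3]
      exact (hK1M A (ι ⊕ κ) ZU ZU).2.2.1
    have e3 : k1 G = k1 g := by
      rw [hK1B A ι κ g 1 G rfl, (hK1M A κ 1 1).2.2.1, add_zero]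
    have e4 : k1 H = k1 h := by
      rw [hK1B A ι κ 1 h H rfl, (hK1M A ι 1 1).2.2.1, zero_add]
    rw [key] at e1
    have e5 : k1 ZU + k1 G + k1 ZU = k1 G + (k1 ZU + k1 ZU) := by abel
    rw [e5, e2, add_zero] at e1
    rw [← e3, ← e4, e1]

end Pool.Agent.PV
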